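import Pool.Agent.Helper29.OV.ApiDefs

/-! Packet OV-BU1: Buchi's theorem for words of cells. -/

set_option autoImplicit false

namespace Pool.Agent.Helper86.OV

open Pool.Agent.Helper29.OV

/-! ### Closure properties of recognisable languages -/

theorem rec_congr {C : Type} {L L' : List C → Prop} (h : Rec L) (hL : ∀ u, L' u ↔ L u) :
    Rec L' := by
  obtain ⟨M, hM, hf, μ, T, h1⟩ := h
  exact ⟨M, hM, hf, μ, T, fun u => (hL u).trans (h1 u)⟩

theorem rec_not {C : Type} {L : List C → Prop} (h : Rec L) : Rec fun u => ¬ L u := by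
  obtain ⟨M, hM, hf, μ, T, h1⟩ := h
  refine ⟨M, hM, hf, μ, Tᶜ, fun u => ?_⟩
  show ¬ L u ↔ _
  rw [h1, Set.mem_compl_iff]

theorem rec_and {C : Type} {L L' : List C → Prop} (h : Rec L) (h' : Rec L') :
    Rec fun u => L u ∧ L' u := by
  obtain ⟨M, hM, hf, μ, T, h1⟩ := h
  obtain ⟨M', hM', hf', μ', T', h1'⟩ := h'
  refine ⟨M × M', inferInstance, inferInstance, fun c => (μ c, μ' c), T ×ˢ T', fun u => ?_⟩
  have h2 : (u.map fun c => (μ c, μ' c)).prod = ((u.map μ).prod, (u.map μ').prod) := by
    induction u with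
    | nil => rfl
    | cons c u ih =>
      rw [List.map_cons, List.prod_cons, ih, List.map_cons, List.prod_cons, List.map_cons,
        List.prod_cons]
      rfl
  show (L u ∧ L' u) ↔ _
  rw [h1, h1', h2]
  rfl

open Pointwise in
theorem rec_proj {C C' : Type} {L : List C' → Prop} (h : Rec L) (r : C → C' → Prop) :
    Rec fun u : List C => ∃ u', List.Forall₂ r u u' ∧ L u' := by
  obtain ⟨M, hM, hf, μ, T, h1⟩ := h
  have key : ∀ (u : List C) (x : M), x ∈ (u.map fun c => {y | ∃ c', r c c' ∧ μ c' = y}).prod ↔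
      ∃ u', List.Forall₂ r u u' ∧ (u'.map μ).prod = x := by
    intro u
    induction u with
    | nil =>
      intro x
      rw [List.map_nil, List.prod_nil, Set.mem_one]
      constructor
      · intro hx
        exact ⟨[], List.Forall₂.nil, hx.symm⟩
      · rintro ⟨u', hu', hx⟩
        cases hu'
        exact hx.symm
    | cons c u ih =>
      intro x
      rw [List.map_cons, List.prod_cons, Set.mem_mul]
      constructor
      · rintro ⟨a, ⟨c', hc', ha⟩, b, hb, hab⟩
        obtain ⟨u', hu', hb'⟩ := (ih b).1 hb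
        refine ⟨c' :: u', List.Forall₂.cons hc' hu', ?_⟩
        rw [List.map_cons, List.prod_cons, ha, hb', hab]
      · rintro ⟨u', hu', hx⟩
        cases hu' with
        | cons hc hu =>
          rename_i c' u''
          refine ⟨μ c', ⟨c', hc, rfl⟩, (u''.map μ).prod, (ih _).2 ⟨u'', hu, rfl⟩, ?_⟩
          rw [← hx, List.map_cons, List.prod_cons]
  refine ⟨Set M, inferInstance, inferInstance, fun c => {y | ∃ c', r c c' ∧ μ c' = y},
    {S | ∃ x ∈ S, x ∈ T}, fun u => ?_⟩
  constructor
  · rintro ⟨u', hu', hL⟩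
    exact ⟨(u'.map μ).prod, (key u _).2 ⟨u', hu', rfl⟩, (h1 u').1 hL⟩
  · rintro ⟨x, hx, hxT⟩
    obtain ⟨u', hu', hu''⟩ := (key u x).1 hx
    exact ⟨u', hu', (h1 u').2 (hu''.symm ▸ hxT)⟩

/-- the maps of `Q`, composed from left to right -/
structure Tr (Q : Type) : Type where
  f : Q → Q

instance (Q : Type) : Monoid (Tr Q) where
  mul a b := ⟨fun q => b.f (a.f q)⟩
  one := ⟨id⟩
  mul_assoc _ _ _ := rfl
  one_mul _ := rfl
  mul_one _ := rfl

instance (Q : Type) [Finite Q] : Finite (Tr Q) :=
  Finite.of_injective Tr.f fun a b h => by cases a; cases b; simpa using h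

theorem rec_aut {C Q : Type} [Finite Q] (δ : Q → C → Q) (q₀ : Q) (F : Q → Prop) :
    Rec fun u : List C => F (u.foldl δ q₀) := by
  refine ⟨Tr Q, inferInstance, inferInstance, fun c => ⟨fun q => δ q c⟩, {t | F (t.f q₀)},
    fun u => ?_⟩
  have key : ∀ (u : List C) (q : Q), ((u.map fun c => (⟨fun q => δ q c⟩ : Tr Q)).prod).f q
      = u.foldl δ q := by
    intro u
    induction u with
    | nil => intro q; rfl
    | cons c u ih =>
      intro q
      rw [List.map_cons, List.prod_cons, List.foldl_cons, ← ih (δ q c)]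
      rfl
  rw [Set.mem_ofPred_eq, key]

theorem rec_exists {C : Type} (P : C → Prop) : Rec fun u : List C => ∃ c ∈ u, P c := by
  refine rec_congr (rec_aut (Q := Prop) (fun q c => q ∨ P c) False (fun q => q)) fun u => ?_
  have key : ∀ (u : List C) (q : Prop), u.foldl (fun q c => q ∨ P c) q ↔ q ∨ ∃ c ∈ u, P c := by
    intro u
    induction u with
    | nil => intro q; simp
    | cons c u ih =>
      intro q
      rw [List.foldl_cons, ih]
      simp only [List.mem_cons, exists_eq_or_imp, or_assoc]
  rw [key]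
  simp

/-! ### Values of the variables -/

variable {B : Type}

theorem foVal_nil (x : ℕ) : foVal ([] : List (Cell B)) x = 0 := rfl

theorem foVal_cons_pos {c : Cell B} {x : ℕ} (h : c.fo x) (u : List (Cell B)) :
    foVal (c :: u) x = 0 := by
  unfold foVal
  rw [List.findIdx_cons]
  simp [h]

theorem foVal_cons_neg {c : Cell B} {x : ℕ} (h : ¬ c.fo x) (u : List (Cell B)) :
    foVal (c :: u) x = foVal u x + 1 := by
  unfold foVal
  rw [List.findIdx_cons]
  simp [h]

theorem zero_mem_soVal {c : Cell B} {u : List (Cell B)} {Y : ℕ} :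
    0 ∈ soVal (c :: u) Y ↔ c.so Y := by
  constructor
  · rintro ⟨d, hd, h⟩
    rw [List.getElem?_cons_zero, Option.some.injEq] at hd
    rw [hd]
    exact h
  · intro h
    exact ⟨c, rfl, h⟩

theorem succ_mem_soVal {c : Cell B} {u : List (Cell B)} {Y p : ℕ} :
    p + 1 ∈ soVal (c :: u) Y ↔ p ∈ soVal u Y := by
  constructor
  · rintro ⟨d, hd, h⟩
    rw [List.getElem?_cons_succ] at hd
    exact ⟨d, hd, h⟩
  · rintro ⟨d, hd, h⟩
    exact ⟨d, by rw [List.getElem?_cons_succ]; exact hd, h⟩

theorem soVal_lt {u : List (Cell B)} {Y p : ℕ} (h : p ∈ soVal u Y) : p < u.length := by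
  obtain ⟨d, hd, -⟩ := h
  exact (List.getElem?_eq_some_iff.1 hd).1

theorem map_base {u u' : List (Cell B)} (h : List.Forall₂ (fun c c' => c'.base = c.base) u u') :
    u'.map Cell.base = u.map Cell.base := by
  induction h with
  | nil => rfl
  | cons h _ ih => rw [List.map_cons, List.map_cons, h, ih]

theorem foVal_congr {u u' : List (Cell B)} {y : ℕ}
    (h : List.Forall₂ (fun c c' => (c'.fo y ↔ c.fo y)) u u') : foVal u' y = foVal u y := by
  induction h with
  | nil => rfl
  | @cons c c' _ _ h _ ih =>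
    by_cases hc : c.fo y
    · rw [foVal_cons_pos hc, foVal_cons_pos (h.2 hc)]
    · rw [foVal_cons_neg hc, foVal_cons_neg (fun h' => hc (h.1 h')), ih]

theorem soVal_congr {u u' : List (Cell B)} {Y : ℕ}
    (h : List.Forall₂ (fun c c' => (c'.so Y ↔ c.so Y)) u u') : soVal u' Y = soVal u Y := by
  induction h with
  | nil => rfl
  | cons h _ ih =>
    ext p
    cases p with
    | zero => rw [zero_mem_soVal, zero_mem_soVal, h]
    | succ p => rw [succ_mem_soVal, succ_mem_soVal, ih]

theorem foVal_lt_of_exists {u : List (Cell B)} {x : ℕ} (h : ∃ c ∈ u, c.fo x) :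
    foVal u x < u.length := by
  induction u with
  | nil => simp at h
  | cons c u ih =>
    by_cases hc : c.fo x
    · rw [foVal_cons_pos hc]
      simp
    · rw [foVal_cons_neg hc, List.length_cons]
      have h1 : ∃ c ∈ u, c.fo x := by
        obtain ⟨d, hd, hd'⟩ := h
        rcases List.mem_cons.1 hd with h2 | h2
        · exact absurd (h2 ▸ hd') hc
        · exact ⟨d, h2, hd'⟩
      have := ih h1
      omega

/-! ### The atoms -/

theorem rec_lt (x y : ℕ) : Rec fun u : List (Cell B) => foVal u x < foVal u y := by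
  classical
  let δ : Fin 3 → Cell B → Fin 3 := fun q c =>
    if q = 0 then (if c.fo y then 2 else if c.fo x then 1 else 0) else q
  refine rec_congr (rec_aut δ 0 (fun q => q = 1)) fun u => ?_
  have fix : ∀ (u : List (Cell B)) (q : Fin 3), q ≠ 0 → u.foldl δ q = q := by
    intro u
    induction u with
    | nil => intro q _; rfl
    | cons c u ih =>
      intro q hq
      have h1 : δ q c = q := if_neg hq
      rw [List.foldl_cons, h1]
      exact ih q hq
  induction u with
  | nil => simp [foVal_nil]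
  | cons c u ih =>
    rw [List.foldl_cons]
    by_cases hy : c.fo y
    · have h1 : δ 0 c = 2 := by simp [δ, hy]
      rw [h1, fix u 2 (by decide), foVal_cons_pos hy]
      simp
    · by_cases hx : c.fo x
      · have h1 : δ 0 c = 1 := by simp [δ, hy, hx]
        rw [h1, fix u 1 (by decide), foVal_cons_pos hx, foVal_cons_neg hy]
        simp
      · have h1 : δ 0 c = 0 := by simp [δ, hy, hx]
        rw [h1, foVal_cons_neg hx, foVal_cons_neg hy, Nat.add_lt_add_iff_right]
        exact ih

theorem rec_at (x : ℕ) (P : Cell B → Prop) :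
    Rec fun u : List (Cell B) => ∃ c, u[foVal u x]? = some c ∧ P c := by
  classical
  let δ : Fin 3 → Cell B → Fin 3 := fun q c =>
    if q = 0 then (if c.fo x then (if P c then 1 else 2) else 0) else q
  refine rec_congr (rec_aut δ 0 (fun q => q = 1)) fun u => ?_
  have fix : ∀ (u : List (Cell B)) (q : Fin 3), q ≠ 0 → u.foldl δ q = q := by
    intro u
    induction u with
    | nil => intro q _; rfl
    | cons c u ih =>
      intro q hq
      have h1 : δ q c = q := if_neg hq
      rw [List.foldl_cons, h1]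
      exact ih q hq
  induction u with
  | nil => simp
  | cons c u ih =>
    rw [List.foldl_cons]
    by_cases hx : c.fo x
    · rw [foVal_cons_pos hx, List.getElem?_cons_zero]
      by_cases hP : P c
      · have h1 : δ 0 c = 1 := by simp [δ, hx, hP]
        rw [h1, fix u 1 (by decide)]
        exact ⟨fun _ => rfl, fun _ => ⟨c, rfl, hP⟩⟩
      · have h1 : δ 0 c = 2 := by simp [δ, hx, hP]
        rw [h1, fix u 2 (by decide)]
        constructor
        · rintro ⟨d, hd, hd'⟩
          rw [Option.some.injEq] at hd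
          exact absurd (hd ▸ hd') hP
        · intro h
          exact absurd h (by decide)
    · have h1 : δ 0 c = 0 := by simp [δ, hx]
      rw [h1, foVal_cons_neg hx, List.getElem?_cons_succ]
      exact ih

/-! ### Marking -/

/-- the relation for the quantifier `ex x` -/
def rx (x : ℕ) (c c' : Cell B) : Prop :=
  c'.base = c.base ∧ (∀ Y, c'.so Y ↔ c.so Y) ∧ ∀ y, y ≠ x → (c'.fo y ↔ c.fo y)

/-- the relation for the quantifier `exSet Y` -/
def rY (Y : ℕ) (c c' : Cell B) : Prop :=
  c'.base = c.base ∧ (∀ x, c'.fo x ↔ c.fo x) ∧ ∀ Z, Z ≠ Y → (c'.so Z ↔ c.so Z)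

theorem rx_refl (x : ℕ) (c : Cell B) : rx x c c := ⟨rfl, fun _ => Iff.rfl, fun _ _ => Iff.rfl⟩

theorem forall₂_rx_refl (x : ℕ) (u : List (Cell B)) : List.Forall₂ (rx x) u u := by
  induction u with
  | nil => exact List.Forall₂.nil
  | cons c u ih => exact List.Forall₂.cons (rx_refl x c) ih

theorem exists_mark (x : ℕ) : ∀ (u : List (Cell B)) (p : ℕ), p < u.length →
    ∃ u', List.Forall₂ (rx x) u u' ∧ foVal u' x = p ∧ ∃ c ∈ u', c.fo x := by
  intro u
  induction u with
  | nil =>
    intro p hp
    exact absurd hp (Nat.not_lt_zero p)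
  | cons c u ih =>
    intro p hp
    cases p with
    | zero =>
      let c' : Cell B := ⟨c.base, fun y => y = x ∨ c.fo y, c.so⟩
      have h1 : c'.fo x := Or.inl rfl
      refine ⟨c' :: u, List.Forall₂.cons ⟨rfl, fun _ => Iff.rfl, fun y hy => ?_⟩
        (forall₂_rx_refl x u), foVal_cons_pos h1 u, c', List.mem_cons_self, h1⟩
      constructor
      · rintro (h | h)
        · exact absurd h hy
        · exact h
      · exact Or.inr
    | succ p =>
      obtain ⟨u', hu', hp', d, hd, hdx⟩ := ih p (Nat.lt_of_succ_lt_succ hp)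
      let c' : Cell B := ⟨c.base, fun y => y ≠ x ∧ c.fo y, c.so⟩
      have h1 : ¬ c'.fo x := fun h => h.1 rfl
      refine ⟨c' :: u', List.Forall₂.cons ⟨rfl, fun _ => Iff.rfl, fun y hy => ?_⟩ hu', ?_, d,
        List.mem_cons_of_mem _ hd, hdx⟩
      · exact ⟨fun h => h.2, fun h => ⟨hy, h⟩⟩
      · rw [foVal_cons_neg h1, hp']

theorem exists_set (Y : ℕ) : ∀ (u : List (Cell B)) (S : Set ℕ), (∀ p ∈ S, p < u.length) →
    ∃ u', List.Forall₂ (rY Y) u u' ∧ soVal u' Y = S := by
  intro u
  induction u with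
  | nil =>
    intro S hS
    refine ⟨[], List.Forall₂.nil, ?_⟩
    ext p
    constructor
    · intro h
      exact absurd (soVal_lt h) (Nat.not_lt_zero p)
    · intro h
      exact absurd (hS p h) (Nat.not_lt_zero p)
  | cons c u ih =>
    intro S hS
    obtain ⟨u', hu', hS'⟩ := ih {p | p + 1 ∈ S} fun p hp => by
      have := hS (p + 1) hp
      rw [List.length_cons] at this
      omega
    let c' : Cell B := ⟨c.base, c.fo, fun Z => (Z = Y ∧ 0 ∈ S) ∨ (Z ≠ Y ∧ c.so Z)⟩
    refine ⟨c' :: u', List.Forall₂.cons ⟨rfl, fun _ => Iff.rfl, fun Z hZ => ?_⟩ hu', ?_⟩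
    · constructor
      · rintro (h | h)
        · exact absurd h.1 hZ
        · exact h.2
      · exact fun h => Or.inr ⟨hZ, h⟩
    · ext p
      cases p with
      | zero =>
        rw [zero_mem_soVal]
        constructor
        · rintro (h | h)
          · exact h.2
          · exact absurd rfl h.1
        · exact fun h => Or.inl ⟨rfl, h⟩
      | succ p =>
        rw [succ_mem_soVal, hS']
        rfl

/-! ### The theorem -/

theorem bu1 {m : ℕ} (a₀ : Fin m) (R : ℕ → Set (List ℕ)) {B : Type} (sym : B → Sym m)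
    (Good : List B → Prop) (s K : ℕ)
    (hrel : ∀ i < s, ∀ xs : List ℕ, xs.length ≤ K → ∃ L : List (Cell B) → Prop, Rec L ∧
      ∀ u, Good (u.map Cell.base) → (L u ↔
        ((∀ x ∈ xs, (u.map fun c => sym c.base)[foVal u x]? = some (Sum.inl a₀) →
          ∀ y ∈ xs, foVal u x ≤ foVal u y) ∧ xs.map (foVal u) ∈ R i)))
    (φ : Form m) (hφ : φ.Bdd s K) :
    ∃ L : List (Cell B) → Prop, Rec L ∧ ∀ u, Good (u.map Cell.base) →
      (L u ↔ Holds a₀ R (u.map fun c => sym c.base) (foVal u) (soVal u) φ) := by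
  have hsym : ∀ u : List (Cell B), (u.map fun c => sym c.base) = (u.map Cell.base).map sym := by
    intro u
    rw [List.map_map]
    rfl
  induction φ with
  | lt x y => exact ⟨_, rec_lt x y, fun u _ => Iff.rfl⟩
  | letter t x =>
    refine ⟨_, rec_at x (fun c => sym c.base = t), fun u _ => ?_⟩
    show _ ↔ (u.map fun c => sym c.base)[foVal u x]? = some t
    rw [List.getElem?_map, Option.map_eq_some_iff]
  | rel i xs =>
    obtain ⟨L, hL, h⟩ := hrel i hφ.1 xs hφ.2
    exact ⟨L, hL, h⟩
  | mem x Y => exact ⟨_, rec_at x (fun c => c.so Y), fun u _ => Iff.rfl⟩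
  | neg φ ih =>
    obtain ⟨L, hL, h⟩ := ih hφ
    exact ⟨_, rec_not hL, fun u hu => not_congr (h u hu)⟩
  | and φ ψ ih1 ih2 =>
    obtain ⟨L, hL, h⟩ := ih1 hφ.1
    obtain ⟨L', hL', h'⟩ := ih2 hφ.2
    exact ⟨_, rec_and hL hL', fun u hu => and_congr (h u hu) (h' u hu)⟩
  | ex x φ ih =>
    obtain ⟨L, hL, h⟩ := ih hφ
    refine ⟨_, rec_proj (rec_and hL (rec_exists fun c => c.fo x)) (rx x), fun u hu => ?_⟩
    have facts : ∀ u', List.Forall₂ (rx x) u u' → u'.map Cell.base = u.map Cell.base ∧
        soVal u' = soVal u ∧ foVal u' = Function.update (foVal u) x (foVal u' x) := by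
      intro u' hu'
      refine ⟨map_base (hu'.imp fun c c' h => h.1), ?_, ?_⟩
      · funext Y
        exact soVal_congr (hu'.imp fun c c' h => h.2.1 Y)
      · funext y
        by_cases hy : y = x
        · subst hy
          rw [Function.update_self]
        · rw [Function.update_of_ne hy]
          exact foVal_congr (hu'.imp fun c c' h => h.2.2 y hy)
    constructor
    · rintro ⟨u', hu', hLu', hex⟩
      obtain ⟨f1, f2, f3⟩ := facts u' hu'
      refine ⟨foVal u' x, ?_, ?_⟩
      · have h1 := foVal_lt_of_exists hex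
        rw [List.length_map]
        rw [← hu'.length_eq] at h1
        exact h1
      · have h1 := (h u' (f1 ▸ hu)).1 hLu'
        rw [hsym, f1, f2, f3, ← hsym] at h1
        exact h1
    · rintro ⟨p, hp, hH⟩
      rw [List.length_map] at hp
      obtain ⟨u', hu', hp', hex⟩ := exists_mark x u p hp
      obtain ⟨f1, f2, f3⟩ := facts u' hu'
      refine ⟨u', hu', ?_, hex⟩
      refine (h u' (f1 ▸ hu)).2 ?_
      rw [hsym, f1, f2, f3, hp', ← hsym]
      exact hH
  | exSet Y φ ih =>
    obtain ⟨L, hL, h⟩ := ih hφ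
    refine ⟨_, rec_proj hL (rY Y), fun u hu => ?_⟩
    have facts : ∀ u', List.Forall₂ (rY Y) u u' → u'.map Cell.base = u.map Cell.base ∧
        foVal u' = foVal u ∧ soVal u' = Function.update (soVal u) Y (soVal u' Y) := by
      intro u' hu'
      refine ⟨map_base (hu'.imp fun c c' h => h.1), ?_, ?_⟩
      · funext x
        exact foVal_congr (hu'.imp fun c c' h => h.2.1 x)
      · funext Z
        by_cases hZ : Z = Y
        · subst hZ
          rw [Function.update_self]
        · rw [Function.update_of_ne hZ]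
          exact soVal_congr (hu'.imp fun c c' h => h.2.2 Z hZ)
    constructor
    · rintro ⟨u', hu', hLu'⟩
      obtain ⟨f1, f2, f3⟩ := facts u' hu'
      refine ⟨soVal u' Y, ?_, ?_⟩
      · intro p hp
        have h1 := soVal_lt hp
        rw [List.length_map]
        rw [← hu'.length_eq] at h1
        exact h1
      · have h1 := (h u' (f1 ▸ hu)).1 hLu'
        rw [hsym, f1, f2, f3, ← hsym] at h1
        exact h1
    · rintro ⟨S, hS, hH⟩
      rw [List.length_map] at hS
      obtain ⟨u', hu', hS'⟩ := exists_set Y u S hS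
      obtain ⟨f1, f2, f3⟩ := facts u' hu'
      refine ⟨u', hu', ?_⟩
      refine (h u' (f1 ▸ hu)).2 ?_
      rw [hsym, f1, f2, f3, hS', ← hsym]
      exact hH

end Pool.Agent.Helper86.OV
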