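import Pool.Agent.Helper84.OV.Zero

/-!
# Project OV, packet CHT: small heights of constants
-/

set_option autoImplicit false

open Finset

namespace Pool.Agent.Helper86.OV.CHT

open Pool.Agent.Helper84.OV

open scoped Polynomial

lemma natAbs_coeff_le (F : ℤ[X]) (i : ℕ) : (F.coeff i).natAbs ≤ n1 F := by
  rw [n1_eq F (F.support ∪ {i}) subset_union_left]
  exact single_le_sum (f := fun i => (F.coeff i).natAbs) (fun _ _ => Nat.zero_le _) (by simp)

lemma n1_coeff_le (S : R2) (j : ℕ) : n1 (S.coeff j) ≤ nrm S := by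
  rw [nrm_eq S (S.support ∪ {j}) subset_union_left]
  exact single_le_sum (f := fun j => n1 (S.coeff j)) (fun _ _ => Nat.zero_le _) (by simp)

lemma pdiv (G : R2) (hd : 1 ≤ G.natDegree) : ∀ (n : ℕ) (S : R2), S.natDegree ≤ n →
    ∃ r : R2, r.natDegree < G.natDegree ∧ G ∣ Polynomial.C G.leadingCoeff ^ (n + 1) * S - r ∧
      nrm r ≤ nrm S * (2 * nrm G) ^ (n + 1) := by
  have hG0 : G ≠ 0 := by rintro rfl; simp at hd
  have hl : n1 G.leadingCoeff ≤ nrm G := n1_coeff_le G G.natDegree
  have small : ∀ (n : ℕ) (S : R2), S.natDegree ≤ n → n < G.natDegree →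
    ∃ r : R2, r.natDegree < G.natDegree ∧ G ∣ Polynomial.C G.leadingCoeff ^ (n + 1) * S - r ∧
      nrm r ≤ nrm S * (2 * nrm G) ^ (n + 1) := by
    intro n S hS hn
    refine ⟨Polynomial.C G.leadingCoeff ^ (n + 1) * S, ?_, ?_, ?_⟩
    · rw [← Polynomial.C_pow]
      exact lt_of_le_of_lt ((Polynomial.natDegree_C_mul_le _ _).trans hS) hn
    · rw [sub_self]; exact dvd_zero _
    · refine (nrm_mul _ _).trans ?_
      rw [mul_comm]
      refine Nat.mul_le_mul_left _ ((nrm_pow _ _).trans (Nat.pow_le_pow_left ?_ _))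
      rw [nrm_C]
      omega
  intro n
  induction n with
  | zero => intro S hS; exact small 0 S hS hd
  | succ n ih =>
    intro S hS
    rcases lt_or_ge (n + 1) G.natDegree with hn | hn
    · exact small (n + 1) S hS hn
    · set S' : R2 := Polynomial.C G.leadingCoeff * S -
        Polynomial.C (S.coeff (n + 1)) * Polynomial.X ^ (n + 1 - G.natDegree) * G with hS'
      have hdeg : S'.natDegree ≤ n := by
        rw [Polynomial.natDegree_le_iff_coeff_eq_zero]
        intro m hm
        rw [hS', Polynomial.coeff_sub, Polynomial.coeff_C_mul, mul_assoc, Polynomial.coeff_C_mul,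
          Polynomial.coeff_X_pow_mul', if_pos (by omega)]
        rcases eq_or_lt_of_le (Nat.succ_le_of_lt hm) with h | h
        · have h2 : m - (n + 1 - G.natDegree) = G.natDegree := by omega
          rw [h2, ← h, Polynomial.coeff_natDegree, mul_comm, sub_self]
        · rw [Polynomial.coeff_eq_zero_of_natDegree_lt (p := S) (by omega),
            Polynomial.coeff_eq_zero_of_natDegree_lt (p := G) (by omega), mul_zero, mul_zero, sub_zero]
      have hnrm : nrm S' ≤ nrm S * (2 * nrm G) := by
        have h1 : nrm (Polynomial.C G.leadingCoeff * S) ≤ nrm G * nrm S := by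
          refine (nrm_mul _ _).trans (Nat.mul_le_mul_right _ ?_)
          rw [nrm_C]; exact hl
        have h2 : nrm (Polynomial.C (S.coeff (n + 1)) * Polynomial.X ^ (n + 1 - G.natDegree) * G) ≤
            nrm S * nrm G := by
          refine (nrm_mul _ _).trans (Nat.mul_le_mul_right _ ?_)
          refine (nrm_mul _ _).trans ?_
          have h3 : nrm (Polynomial.X ^ (n + 1 - G.natDegree) : R2) ≤ 1 := by
            have := nrm_pow YY (n + 1 - G.natDegree)
            rw [nrm_YY, one_pow] at this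
            exact this
          rw [nrm_C]
          calc n1 (S.coeff (n + 1)) * nrm (Polynomial.X ^ (n + 1 - G.natDegree) : R2)
              ≤ nrm S * 1 := Nat.mul_le_mul (n1_coeff_le S _) h3
            _ = nrm S := mul_one _
        have h4 := nrm_sub (Polynomial.C G.leadingCoeff * S)
          (Polynomial.C (S.coeff (n + 1)) * Polynomial.X ^ (n + 1 - G.natDegree) * G)
        rw [← hS'] at h4
        have h5 : nrm S * (2 * nrm G) = nrm G * nrm S + nrm S * nrm G := by ring
        omega
      obtain ⟨r, hr1, hr2, hr3⟩ := ih S' hdeg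
      refine ⟨r, hr1, ?_, ?_⟩
      · have h6 : Polynomial.C G.leadingCoeff ^ (n + 1 + 1) * S - r =
            (Polynomial.C G.leadingCoeff ^ (n + 1) * S' - r) +
              G * (Polynomial.C G.leadingCoeff ^ (n + 1) *
                (Polynomial.C (S.coeff (n + 1)) * Polynomial.X ^ (n + 1 - G.natDegree))) := by
          rw [hS']; ring
        rw [h6]
        exact dvd_add hr2 (Dvd.intro _ rfl)
      · calc nrm r ≤ nrm S' * (2 * nrm G) ^ (n + 1) := hr3
          _ ≤ nrm S * (2 * nrm G) * (2 * nrm G) ^ (n + 1) := Nat.mul_le_mul_right _ hnrm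
          _ = nrm S * (2 * nrm G) ^ (n + 1 + 1) := by ring

theorem t : S_CHT := by
  intro G S1 S2 a b n hG hd h1 h2 hab ha hb hnd hdvd
  have hG0 : G ≠ 0 := hG.ne_zero
  obtain ⟨r1, hr1, hr1', hr1''⟩ := pdiv G hd n S1 h1
  obtain ⟨r2, hr2, hr2', hr2''⟩ := pdiv G hd n S2 h2
  have hcast : ∀ (c : ℤ) (r : R2), r.natDegree < G.natDegree → ((c : R2) * r).natDegree < G.natDegree := by
    intro c r hr
    have : (c : R2) = Polynomial.C (c : ℤ[X]) := by simp
    rw [this]
    exact lt_of_le_of_lt (Polynomial.natDegree_C_mul_le _ _) hr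
  have hz : (b : R2) * r1 - (a : R2) * r2 = 0 := by
    apply Polynomial.eq_zero_of_dvd_of_natDegree_lt (p := G)
    · have h3 : (b : R2) * r1 - (a : R2) * r2 =
          Polynomial.C G.leadingCoeff ^ (n + 1) * ((b : R2) * S1 - (a : R2) * S2) -
          (b : R2) * (Polynomial.C G.leadingCoeff ^ (n + 1) * S1 - r1) +
          (a : R2) * (Polynomial.C G.leadingCoeff ^ (n + 1) * S2 - r2) := by ring
      rw [h3]
      exact dvd_add (dvd_sub (hdvd.mul_left _) (hr1'.mul_left _)) (hr2'.mul_left _)
    · exact lt_of_le_of_lt (Polynomial.natDegree_sub_le _ _)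
        (max_lt (hcast b r1 hr1) (hcast a r2 hr2))
  have hr20 : r2 ≠ 0 := by
    rintro rfl
    rw [sub_zero] at hr2'
    have hp : Prime G := hG.prime
    rcases hp.dvd_or_dvd hr2' with h | h
    · have h4 := hp.dvd_of_dvd_pow h
      have h5 : Polynomial.C G.leadingCoeff ≠ 0 := by
        rw [Ne, Polynomial.C_eq_zero, Polynomial.leadingCoeff_eq_zero]; exact hG0
      have h6 := Polynomial.natDegree_le_of_dvd h4 h5
      rw [Polynomial.natDegree_C] at h6
      omega
    · exact hnd h
  obtain ⟨j, hj⟩ := Polynomial.nonempty_support_iff.2 hr20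
  rw [Polynomial.mem_support_iff] at hj
  obtain ⟨i, hi⟩ := Polynomial.nonempty_support_iff.2 hj
  rw [Polynomial.mem_support_iff] at hi
  have heq : b * (r1.coeff j).coeff i = a * (r2.coeff j).coeff i := by
    have h7 : (b : R2) * r1 = (a : R2) * r2 := sub_eq_zero.1 hz
    have h8 := congrArg (fun S : R2 => (S.coeff j).coeff i) h7
    simp only [Polynomial.coeff_intCast_mul] at h8
    exact_mod_cast h8
  have hb2 : b ∣ (r2.coeff j).coeff i := by
    have : b ∣ a * (r2.coeff j).coeff i := ⟨_, heq.symm⟩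
    exact (hab.symm).dvd_of_dvd_mul_left this
  have ha2 : a ∣ (r1.coeff j).coeff i := by
    have : a ∣ b * (r1.coeff j).coeff i := ⟨_, heq⟩
    exact hab.dvd_of_dvd_mul_left this
  have hc1 : (r1.coeff j).coeff i ≠ 0 := by
    intro h0
    rw [h0, mul_zero] at heq
    exact (mul_ne_zero ha hi) heq.symm
  constructor
  · calc a.natAbs ≤ ((r1.coeff j).coeff i).natAbs :=
        Nat.le_of_dvd (Int.natAbs_pos.2 hc1) (Int.natAbs_dvd_natAbs.2 ha2)
      _ ≤ nrm r1 := (natAbs_coeff_le _ _).trans (n1_coeff_le _ _)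
      _ ≤ _ := hr1''
  · calc b.natAbs ≤ ((r2.coeff j).coeff i).natAbs :=
        Nat.le_of_dvd (Int.natAbs_pos.2 hi) (Int.natAbs_dvd_natAbs.2 hb2)
      _ ≤ nrm r2 := (natAbs_coeff_le _ _).trans (n1_coeff_le _ _)
      _ ≤ _ := hr2''

end Pool.Agent.Helper86.OV.CHT
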